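import Pool.Agent.Helper61_ENT.Ends

/-!
The triangle case of the Caccetta–Häggkvist conjecture for digraphs with a ringed law.

A pair of arcs `u → v`, `x → y` is ringed if there is no directed path of length 2 from `u` to `y`
and no directed path of length 1 or 2 from `x` to `v`; then `u, x` are distinct nonadjacent vertices,
and so are `v, y`.  Example: opposite arcs of a directed 4-cycle, if `D` has no directed cycle of
length at most 3.  The theorem is sharp: for the circular digraph with `3 r + 1` vertices and all
steps `1, …, r` let `u` be uniform, `v = u + l`, `x = v + r`, `y = x + (r + 1 - l)` with `l` uniform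
in `1, …, r`; here `c = r / (3 r + 1)`.

Proof: among the laws of quadruples with the same two arc marginals carried by ringed pairs take one
of maximal entropy; it is a Markov field on the 4-cycle `u v x y`, and the submodularity of the
entropy gives `H(u,x) + H(v,y) ≥ H(u,v) + H(x,y)`; both diagonals live on nonadjacent pairs.
-/

set_option autoImplicit false

open scoped Classical

namespace Pool.Agent.Helper61_ENT.Draft.RingedArcs

/-- Let `D` be a finite digraph without loops and digons, `a` and `b` positive weights such that all
`b`-outdegrees are at least `c b(V)` and all `a`-indegrees are at least `c a(V)`.  Let `r`, `s` be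
probabilities on `V` such that the average `a`-outdegree with respect to `r` is at least `c a(V)` and
the average `b`-indegree with respect to `s` is at least `c b(V)`.  If there is a law `P` of pairs of
arcs `u → v`, `x → y`, carried by ringed pairs, such that `u` has law `r` and `v` is chosen in the
out-neighbourhood of `u` proportionally to `b`, and `y` has law `s` and `x` is chosen in the
in-neighbourhood of `y` proportionally to `a`, then `c < 1/3`. -/
theorem result (V : Type) [Fintype V] (D : V → V → Prop) (hloop : ∀ v, ¬ D v v)
    (hdig : ∀ u v, D u v → ¬ D v u) (a b : V → ℝ) (ha : ∀ v, 0 < a v) (hb : ∀ v, 0 < b v)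
    (c : ℝ) (hc : 0 < c)
    (hout : ∀ x, c * ∑ y, b y ≤ ∑ y, if D x y then b y else 0)
    (hin : ∀ x, c * ∑ y, a y ≤ ∑ y, if D y x then a y else 0)
    (r s : V → ℝ) (hr : ∀ v, 0 ≤ r v) (hs : ∀ v, 0 ≤ s v) (hr1 : ∑ v, r v = 1)
    (hs1 : ∑ v, s v = 1)
    (hra : c * ∑ y, a y ≤ ∑ x, r x * ∑ y, if D x y then a y else 0)
    (hsb : c * ∑ y, b y ≤ ∑ x, s x * ∑ y, if D y x then b y else 0)
    (P : V → V → V → V → ℝ) (hP0 : ∀ u v x y, 0 ≤ P u v x y)
    (hP : ∀ u v x y, P u v x y ≠ 0 →
      (∀ z, ¬ (D u z ∧ D z y)) ∧ (∀ z, ¬ (D x z ∧ D z v)) ∧ ¬ D x v)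
    (hP1 : ∀ u v, ∑ x, ∑ y, P u v x y =
      if D u v then r u * b v / (∑ z, if D u z then b z else 0) else 0)
    (hP2 : ∀ x y, ∑ u, ∑ v, P u v x y =
      if D x y then s y * a x / (∑ z, if D z y then a z else 0) else 0) : 3 * c < 1 :=
  free_ends D hloop hdig a b ha hb c hc hout hin r s hr hs hr1 hs1 hra hsb P hP0
    (fun u v x y h => hP u v x y h) hP1 hP2

end Pool.Agent.Helper61_ENT.Draft.RingedArcs
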